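import Mathlib

namespace Pool.Agent.Results.MP_2163b8_an.NotGen

open Set Filter Topology

/-- projectional skeleton -/
def Skel {X Γ : Type} [NormedAddCommGroup X] [NormedSpace ℝ X] [PartialOrder Γ]
    (P : Γ → X →L[ℝ] X) : Prop :=
  (∀ s t : Γ, ∃ u, s ≤ u ∧ t ≤ u) ∧ (∀ s, (P s).comp (P s) = P s) ∧
  (∀ s, TopologicalSpace.IsSeparable (range (P s))) ∧
  (∀ s t, s ≤ t → P s = (P s).comp (P t) ∧ P s = (P t).comp (P s)) ∧
  (∀ u : ℕ → Γ, Monotone u →
    ∃ s, IsLUB (range u) s ∧ range (P s) = closure (⋃ n, range (P (u n)))) ∧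
  (⋃ s, range (P s)) = univ

/-- the condition on subsets in the definition of a projectional generator -/
def GenCond {X : Type} [NormedAddCommGroup X] [NormedSpace ℝ X] (D : Set (StrongDual ℝ X))
    (Φ : StrongDual ℝ X → Set X) : Prop :=
  ∀ A ⊆ D, (∃ W : Submodule ℝ (StrongDual ℝ X), closure A = W) → ∀ g : StrongDual ℝ X,
    (∀ a ∈ A, ∀ x ∈ Φ a, g x = 0) →
    StrongDual.toWeakDual g ∈ closure (StrongDual.toWeakDual '' A) → g = 0

noncomputable def ind (n : ℕ) : C(ℕ∞, ℝ) :=
  ⟨fun t => if t < n then 1 else 0, by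
    have : IsClopen {t : ℕ∞ | t < n} := by
      have e : {t : ℕ∞ | t < n} = ⋃ k ∈ Finset.range n, {(k : ℕ∞)} := by
        ext t
        induction t with
        | top => simp
        | coe k => simp
      rw [e]
      exact isClopen_biUnion_finset fun k _ =>
        ⟨isClosed_singleton, ENat.isOpen_singleton (ENat.natCast_ne_top k)⟩
    exact (IsClopen.continuous_indicator this (f := fun _ => (1 : ℝ)) continuous_const).congr
      fun t => by simp [indicator]⟩

noncomputable def Pr : Option ℕ → C(ℕ∞, ℝ) →L[ℝ] C(ℕ∞, ℝ)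
  | none => ContinuousLinearMap.id ℝ _
  | some n => ContinuousLinearMap.mul ℝ _ (ind n)

lemma Pr_ap (n : ℕ) (f : C(ℕ∞, ℝ)) (t : ℕ∞) : Pr (some n) f t = if t < n then f t else 0 := by
  simp [Pr, ind]

@[reducible] def ord : PartialOrder (Option ℕ) where
  le a b := a = b ∨ b = none
  lt a b := (a = b ∨ b = none) ∧ ¬ (b = a ∨ a = none)
  le_refl _ := Or.inl rfl
  le_trans _ _ _ h1 h2 := by grind
  le_antisymm _ _ h1 h2 := by grind

lemma idem (s : Option ℕ) : (Pr s).comp (Pr s) = Pr s := by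
  cases s with
  | none => rfl
  | some n => ext f t; simp only [ContinuousLinearMap.comp_apply, Pr_ap]; split_ifs <;> rfl

lemma cl (s : Option ℕ) : IsClosed (range (Pr s)) := by
  have : range (Pr s) = {f | Pr s f = f} := by
    ext f
    constructor
    · rintro ⟨g, rfl⟩; exact congrArg (fun T : C(ℕ∞, ℝ) →L[ℝ] C(ℕ∞, ℝ) => T g) (idem s)
    · exact fun h => ⟨f, h⟩
  rw [this]
  exact isClosed_eq (Pr s).continuous continuous_id

theorem result : ∃ (X Γ : Type) (_ : NormedAddCommGroup X) (_ : NormedSpace ℝ X)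
    (_ : PartialOrder Γ) (P : Γ → X →L[ℝ] X) (s : StrongDual ℝ X → Γ)
    (Φ : StrongDual ℝ X → Set X), CompleteSpace X ∧ Skel P ∧ (∀ t, ‖P t‖ ≤ 1) ∧
    (∀ f : StrongDual ℝ X, (∃ t, ∃ g : StrongDual ℝ X, f = g.comp (P t)) →
      f.comp (P (s f)) = f ∧ (Φ f).Countable ∧ Φ f ⊆ range (P (s f)) ∧
        range (P (s f)) ⊆ closure (Φ f)) ∧
    ¬ GenCond {f | ∃ t, ∃ g : StrongDual ℝ X, f = g.comp (P t)} Φ := by
  classical
  have hsep : ∀ s, TopologicalSpace.IsSeparable (range (Pr s)) := fun s => .of_separableSpace _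
  choose c hc1 hc2 hc3 using fun s => (hsep s).exists_countable_dense_subset
  set s : StrongDual ℝ C(ℕ∞, ℝ) → Option ℕ := fun f =>
    if h : ∃ n, f.comp (Pr (some n)) = f then some h.choose else none with hs
  refine ⟨C(ℕ∞, ℝ), Option ℕ, inferInstance, inferInstance, ord, Pr, s, fun f => c (s f),
    inferInstance, ⟨fun _ _ => ⟨none, Or.inr rfl, Or.inr rfl⟩, idem, hsep, ?_, ?_, ?_⟩, ?_, ?_, ?_⟩
  · rintro a b (rfl | rfl)
    · exact ⟨(idem a).symm, (idem a).symm⟩
    · exact ⟨rfl, rfl⟩
  · intro u hu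
    by_cases h : ∃ n, u n = none
    · obtain ⟨n, hn⟩ := h
      refine ⟨none, ⟨fun _ _ => Or.inr rfl, fun b hb => hb ⟨n, hn⟩⟩, ?_⟩
      have e : range (Pr none) = univ := eq_univ_of_forall fun f => ⟨f, rfl⟩
      rw [e]
      refine (eq_univ_of_forall fun f => subset_closure (mem_iUnion.2 ⟨n, ?_⟩)).symm
      rw [hn]; exact ⟨f, rfl⟩
    · have e : ∀ n, u n = u 0 := fun n => by
        rcases hu (Nat.zero_le n) with h1 | h1
        · exact h1.symm
        · exact absurd ⟨n, h1⟩ h
      refine ⟨u 0, ⟨?_, fun b hb => hb ⟨0, rfl⟩⟩, ?_⟩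
      · rintro _ ⟨n, rfl⟩; exact Or.inl (e n)
      · simp only [e, iUnion_const, (cl _).closure_eq]
  · exact eq_univ_of_forall fun f => mem_iUnion.2 ⟨none, f, rfl⟩
  · intro t
    refine ContinuousLinearMap.opNorm_le_bound _ zero_le_one fun f => ?_
    rw [one_mul]
    cases t with
    | none => exact le_rfl
    | some n =>
      refine (ContinuousMap.norm_le _ (norm_nonneg _)).2 fun x => ?_
      rw [Pr_ap]; split_ifs
      · exact f.norm_coe_le_norm x
      · simp
  · intro f _
    refine ⟨?_, hc2 _, hc1 _, hc3 _⟩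
    simp only [hs]
    split_ifs with h
    · exact h.choose_spec
    · rfl
  · intro h
    let W : Submodule ℝ (StrongDual ℝ C(ℕ∞, ℝ)) :=
      { carrier := {f | ∃ n, f.comp (Pr (some n)) = f}
        zero_mem' := ⟨0, by simp⟩
        smul_mem' := fun r f ⟨n, hn⟩ => ⟨n, by rw [ContinuousLinearMap.smul_comp, hn]⟩
        add_mem' := by
          have mono : ∀ (f : StrongDual ℝ C(ℕ∞, ℝ)) n m, n ≤ m → f.comp (Pr (some n)) = f →
              f.comp (Pr (some m)) = f := fun f n m hnm hn => by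
            have e : (Pr (some n)).comp (Pr (some m)) = Pr (some n) := by
              ext g t
              simp only [ContinuousLinearMap.comp_apply, Pr_ap]
              split_ifs with h1 h2
              · rfl
              · exact absurd (h1.trans_le (by exact_mod_cast hnm)) h2
              · rfl
            rw [← hn, ContinuousLinearMap.comp_assoc, e]
          rintro f g ⟨n, hn⟩ ⟨m, hm⟩
          exact ⟨max n m, by rw [ContinuousLinearMap.add_comp, mono f n _ (le_max_left _ _) hn,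
            mono g m _ (le_max_right _ _) hm]⟩ }
    have h1 := h W (fun f _ => ⟨none, f, rfl⟩) ⟨W.topologicalClosure, rfl⟩
      (ContinuousMap.evalCLM ℝ (⊤ : ℕ∞)) (fun a ha x hx => by
        have ha' : ∃ n, a.comp (Pr (some n)) = a := ha
        obtain ⟨y, rfl⟩ := hc1 _ hx
        simp only [hs, dif_pos ha']
        show Pr (some _) y ⊤ = 0
        rw [Pr_ap, if_neg not_top_lt]) (by
        refine mem_closure_of_tendsto (b := atTop) (f := fun n : ℕ =>
          StrongDual.toWeakDual (ContinuousMap.evalCLM ℝ (n : ℕ∞))) ?_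
          (Eventually.of_forall fun n => ⟨_, ⟨n + 1, ?_⟩, rfl⟩)
        · rw [tendsto_iff_forall_eval_tendsto_topDualPairing]
          intro f
          exact (f.continuous.tendsto ⊤).comp ENat.tendsto_natCast_nhds_top
        · ext f
          show Pr (some _) f n = f n
          rw [Pr_ap, if_pos (by exact_mod_cast Nat.lt_succ_self n)])
    have h2 := congrArg (fun g : StrongDual ℝ C(ℕ∞, ℝ) => g 1) h1
    simp at h2

end Pool.Agent.Results.MP_2163b8_an.NotGen
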